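import Pool.Agent.X32.Uni.Neigh

/-!
# Goldbach–Chen representations `N = p + P₂` in which ALL neighbours of both summands are almost primes

Let `L` be given. There are constants `z, G, t` and `κ > 0` such that EVERY large even `N` has, in every window
`(A, B]` with `B ≤ N`, `B - A ≥ θ N`, at least `κ (B - A) V` primes `p > N ^ (1/t)` such that
* `N - p` is a product of at most two primes, all `> N ^ (1/9)`,
* ALL the numbers `p + h` and `N - p + h`, `|h| ≤ L`, are of the form `g w`, where `g ≤ G` has only prime factors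
  `≤ z`, and `|w| > 1` is a product of at most `t` primes, all `> N ^ (1/t)`.
So all the `4 L + 2` numbers near both summands have at most `t + log_2 G` prime factors simultaneously. `V` is the
product of `1 - ω(l) / l` over the primes `l` of `(z, N]`, `ω(l)` the number of the classes `x` modulo `l` for which `l`
divides one of the numbers `x + h`, `N - x + h`; `(B - A) V` is the order of magnitude (with the full dependence on `N`)
conjectured for the number of the `p` for which `N - p` and all the cofactors `w` are primes. For every `s` and every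
colouring almost all of these `p` are covered by disjoint monochromatic progressions of `s` such `p` with differences
at most a power of `log N`.
-/

set_option autoImplicit false

namespace Pool.Agent.Results.MP_dd84fd_nt.AlmostPrimeNeighbourhoods

open Finset

/-- `|v| > 1`, and `|v|` is a product of at most `r` primes, all of them larger than `y` -/
def Almost (r : ℕ) (y : ℝ) (v : ℤ) : Prop :=
  1 < |v| ∧ v.natAbs.primeFactorsList.length ≤ r ∧ ∀ q : ℕ, q.Prime → (q : ℤ) ∣ v → y < q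

/-- the same for natural numbers -/
def AlmostN (r : ℕ) (y : ℝ) (v : ℕ) : Prop :=
  1 < v ∧ v.primeFactorsList.length ≤ r ∧ ∀ q : ℕ, q.Prime → q ∣ v → y < q

/-- `v = g w`, where `1 ≤ g ≤ G` has only prime factors `≤ z`, and `|w| > 1` is a product of at most `t` primes `> y` -/
def Near (z G t : ℕ) (y : ℝ) (v : ℤ) : Prop :=
  ∃ (g : ℕ) (w : ℤ), v = g * w ∧ 1 ≤ g ∧ g ≤ G ∧ (∀ p : ℕ, p.Prime → p ∣ g → p ≤ z) ∧ Almost t y w

open Classical in
/-- `ω(p)`: the number of the classes `x` modulo `p` such that `p` divides one of the `x + h`, `N - x + h`, `|h| ≤ L` -/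
noncomputable def omega (N L p : ℕ) : ℕ :=
  ((range p).filter (fun x : ℕ => ∃ h : ℤ, |h| ≤ L ∧ ((p : ℤ) ∣ x + h ∨ (p : ℤ) ∣ N - x + h))).card

/-- the product of `1 - ω(p) / p` over the primes of `(z, N]` -/
noncomputable def V (N L z : ℕ) : ℝ := ∏ p ∈ (Ioc z N).filter Nat.Prime, (1 - (omega N L p : ℝ) / p)

open Classical in
/-- the primes `p` of `(A, B]` described above -/
noncomputable def Good (N L z G t A B : ℕ) : Finset ℕ :=
  (Ioc A B).filter (fun p : ℕ => p.Prime ∧ (N : ℝ) ^ (1 / (t : ℝ)) < p ∧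
    AlmostN 2 ((N : ℝ) ^ (1 / 9 : ℝ)) (N - p) ∧ AlmostN t ((N : ℝ) ^ (1 / (t : ℝ))) (N - p) ∧
    ∀ h : ℤ, |h| ≤ L → Near z G t ((N : ℝ) ^ (1 / (t : ℝ))) (p + h) ∧
      Near z G t ((N : ℝ) ^ (1 / (t : ℝ))) (N - p + h))

/-- the terms `a, a + b, ..., a + (s - 1) b` of the progression `τ = (a, b)` -/
def terms (s : ℕ) (τ : ℕ × ℕ) : Finset ℕ := (range s).image (fun i => τ.1 + i * τ.2)

theorem result (L : ℕ) : ∃ z G t : ℕ, 1 ≤ t ∧ ∃ κ : ℝ, 0 < κ ∧ ∀ (s ρ : ℕ) (θ δ : ℝ), 1 ≤ s → 0 < θ → 0 < δ →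
    ∃ c N₀ : ℕ, ∀ N : ℕ, N₀ ≤ N → N % 2 = 0 →
      κ / Real.log N ^ (4 * L + 2) ≤ V N L z ∧ ∀ A B : ℕ, B ≤ N → θ * N ≤ (B : ℝ) - A →
        κ * ((B : ℝ) - A) * V N L z ≤ ((Good N L z G t A B).card : ℝ) ∧
        ∀ χ : ℕ → Fin ρ, ∃ P : Finset (ℕ × ℕ),
          (∀ τ ∈ P, 1 ≤ τ.2 ∧ (τ.2 : ℝ) ≤ Real.log N ^ c ∧
            ∀ l < s, τ.1 + l * τ.2 ∈ Good N L z G t A B ∧ χ (τ.1 + l * τ.2) = χ τ.1) ∧
          (P : Set (ℕ × ℕ)).PairwiseDisjoint (terms s) ∧
          (((Good N L z G t A B \ P.biUnion (terms s)).card : ℕ) : ℝ) ≤ δ * ((B : ℝ) - A) * V N L z :=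
  Pool.Agent.X32.Uni.neighG L

end Pool.Agent.Results.MP_dd84fd_nt.AlmostPrimeNeighbourhoods
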