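import Pool.Agent.X32.Uni.Gold

/-!
# Simultaneous Goldbach representations: a uniform lower bound with an almost prime summand

For every `K` there are `t` and `κ > 0` such that for ALL vectors `m = (m_1, ..., m_K)` of integers between `B` and
`D X` without local obstruction and all intervals `(A, B]` with `B ≤ X`, `B - A ≥ θ X`: at least `κ (B - A) V(m)` primes
`p` of the interval are such that `m_j - p` is a product of at most two primes `> X ^ (1 / 9)` (for any prescribed `j`)
and all `m_l - p` are products of at most `t` primes `> X ^ (1 / t)`. Here `V(m) = ∏_{p ≤ X} (1 - ν_p / p)`, where `ν_p`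
is the number of different residue classes among `0, m_1, ..., m_K` modulo `p`; so this is the order of magnitude
conjectured by Hardy and Littlewood for the number of the primes `p` with ALL `m_l - p` prime, and it is at least
`κ² (B - A) / (log X) ^ (K + 1)`. The bound is uniform: there is no exceptional set of vectors.
Moreover, for all `s`, every `δ > 0` and every colouring with `r` colours, all but at most `δ (B - A) V(m)` of these
primes `p` are covered by pairwise disjoint `s`-term progressions of such primes of one colour, with differences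
`≤ (log X) ^ c`, where `c` does not depend on `m`.
-/

set_option autoImplicit false

namespace Pool.Agent.Results.MP_dd84fd_nt.ChenSimultaneous

open Finset

variable {K : ℕ}

/-- `ν_p`: the number of the residue classes of `0, m_1, ..., m_K` modulo `p` -/
def nu (m : Fin K → ℕ) (p : ℕ) : ℕ := ((insert 0 (univ.image m)).image (fun a => a % p)).card

/-- the product of `1 - ν_p / p` over the primes `p ≤ X` -/
noncomputable def V (m : Fin K → ℕ) (X : ℕ) : ℝ := ∏ p ∈ (Icc 1 X).filter Nat.Prime, (1 - (nu m p : ℝ) / p)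

/-- no local obstruction: for every prime `p` there is an `n` which is different from `0, m_1, ..., m_K` modulo `p` -/
def Admissible (m : Fin K → ℕ) : Prop := ∀ p : ℕ, p.Prime → ∃ n : ℕ, ¬ p ∣ n ∧ ∀ l, ¬ n ≡ m l [MOD p]

/-- `v > 1` is a product of at most `r` primes, all of them larger than `y` -/
def Almost (r : ℕ) (y : ℝ) (v : ℕ) : Prop :=
  1 < v ∧ v.primeFactorsList.length ≤ r ∧ ∀ q : ℕ, q.Prime → q ∣ v → y < q

open Classical in
/-- the primes `p` of `(A, B]`, `p > X ^ (1 / t)`, such that `m_j - p` is a product of at most two primes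
`> X ^ (1 / 9)`, and all the `m_l - p` are products of at most `t` primes `> X ^ (1 / t)` -/
noncomputable def Good (m : Fin K → ℕ) (j : Fin K) (t X A B : ℕ) : Finset ℕ :=
  (Ioc A B).filter (fun p : ℕ => p.Prime ∧ (X : ℝ) ^ (1 / (t : ℝ)) < p ∧
    Almost 2 ((X : ℝ) ^ (1 / 9 : ℝ)) (m j - p) ∧
    ∀ l, Almost t ((X : ℝ) ^ (1 / (t : ℝ))) (m l - p))

/-- the terms `a, a + b, ..., a + (s - 1) b` of the progression `z = (a, b)` -/
def terms (s : ℕ) (z : ℕ × ℕ) : Finset ℕ := (range s).image (fun i => z.1 + i * z.2)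

theorem result (K : ℕ) : ∃ t : ℕ, 1 ≤ t ∧ ∃ κ : ℝ, 0 < κ ∧ ∀ (D s r : ℕ) (θ δ : ℝ), 1 ≤ s → 0 < θ → 0 < δ →
    ∃ c X₀ : ℕ, ∀ X : ℕ, X₀ ≤ X → ∀ m : Fin K → ℕ, (∀ l, m l ≤ D * X) → Admissible m → ∀ j : Fin K,
      ∀ A B : ℕ, B ≤ X → θ * X ≤ (B : ℝ) - A → (∀ l, B ≤ m l) →
        κ / Real.log X ^ (K + 1) ≤ V m X ∧
        κ * ((B : ℝ) - A) * V m X ≤ ((Good m j t X A B).card : ℝ) ∧
        ∀ χ : ℕ → Fin r, ∃ P : Finset (ℕ × ℕ),
          (∀ z ∈ P, 1 ≤ z.2 ∧ (z.2 : ℝ) ≤ Real.log X ^ c ∧
            ∀ i < s, z.1 + i * z.2 ∈ Good m j t X A B ∧ χ (z.1 + i * z.2) = χ z.1) ∧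
          (P : Set (ℕ × ℕ)).PairwiseDisjoint (terms s) ∧
          (((Good m j t X A B \ P.biUnion (terms s)).card : ℕ) : ℝ) ≤ δ * ((B : ℝ) - A) * V m X :=
  Pool.Agent.X32.Uni.goldP K

end Pool.Agent.Results.MP_dd84fd_nt.ChenSimultaneous
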