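import Pool.Agent.X31.L2

/-!
# A uniform lower bound for the number of simultaneous Goldbach representations near the values of polynomials at
# integers with missing digits

`f_i`, `i = 1, ..., K`, are arbitrary real polynomials of degree `d_i ≥ 2` (only the size of the leading coefficient is
restricted), `C_i` is the set of the integers with `M_i` digits in base `b_i` whose digit at `b_i ^ j` is in `𝒟_i j`, where
the sets `𝒟_i j` of allowed digits are arbitrary with at least TWO elements (for instance: the integers with the decimal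
digits `0` and `1` only; such sets can be as thin as `N ^ ε`). For almost all vectors `(n_1, ..., n_K)` of elements of
ARBITRARY dense subsets `A_i` of the sets `C_i`, ALL vectors `(m_1, ..., m_K)` of different positive integers without local
obstruction with `|m_i - f_i(n_i)| ≤ log ^ D N` (for instance, even numbers near the squares of integers with missing
digits for `K = 1`) are such that the number of the primes `p` for which ALL the `m_i - p` are primes satisfies the
asymptotic formula, hence the uniform lower bound of order `N / log ^ (K + 1) N`, in every window of length at least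
`N / log ^ A N`.

The minimal real additive energy of the values of polynomials at the integers with missing digits is from
`Pool.Agent.X31.K1` - `K9` (in this run): large exponential sums over these integers lead, at every scale, to good rational
approximations, and these are the same at all scales. The theorem for products of families with small energies is
`Pool.Agent.TH935.TF.fam_sys` (starting files).
-/

set_option autoImplicit false

namespace Pool.Agent.Results.MP_dd84fd_nt.SimultaneousMissingDigits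

open Finset Filter Topology
open scoped Polynomial
open Pool.Agent.TH935.TF

/-- the integers `0 ≤ n < b ^ m` whose digit at `b ^ j` in base `b` is in `𝒟 j`, for all `j < m` -/
def Digits (b : ℕ) (𝒟 : ℕ → Finset ℕ) (m : ℕ) : Finset ℕ :=
  (range (b ^ m)).filter (fun n => ∀ j < m, n / b ^ j % b ∈ 𝒟 j)

/-- `A` is a subset with at least `#(Digits b 𝒟 m) / log ^ D N` elements of the set `Digits b 𝒟 m`, where all sets `𝒟 j`
of allowed digits have at least two elements; `f` is a real polynomial of degree at most `d`, the coefficient of `x ^ d`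
is at most `log ^ D N` and at least `N / (b ^ (d m) log ^ D N)` in absolute value, and `|f| ≤ N` on `A`. -/
def Fam (b d D N m : ℕ) (𝒟 : ℕ → Finset ℕ) (f : ℝ[X]) (A : Finset ℕ) : Prop :=
  (∀ j, 𝒟 j ⊆ range b ∧ 2 ≤ (𝒟 j).card) ∧
  f.natDegree ≤ d ∧ |f.coeff d| ≤ Real.log N ^ D ∧ (N : ℝ) / Real.log N ^ D ≤ |f.coeff d| * (b : ℝ) ^ (d * m) ∧
  A ⊆ Digits b 𝒟 m ∧ ((Digits b 𝒟 m).card : ℝ) / Real.log N ^ D ≤ A.card ∧ ∀ n ∈ A, |f.eval (n : ℝ)| ≤ N

/-- The number of the primes `p` with `y₁ < p ≤ y₂` for which all the numbers `m i - p` are primes. -/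
def rep {K : ℕ} (m : Fin K → ℕ) (y₁ y₂ : ℕ) : ℕ :=
  ((Ioc y₁ y₂).filter (fun p : ℕ => p.Prime ∧ ∀ i, (m i - p).Prime)).card

/-- The number of the different residues modulo `p` among the numbers `0, m 1, ..., m K`. -/
def nu {K : ℕ} (m : Fin K → ℕ) (p : ℕ) : ℕ := (insert 0 (univ.image (fun i => m i % p))).card

/-- There is no local obstruction: for no prime `p` do the numbers `0, m 1, ..., m K` meet all the classes
modulo `p`. -/
def NoObstruction {K : ℕ} (m : Fin K → ℕ) : Prop := ∀ p : ℕ, p.Prime → nu m p < p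

/-- The partial products `∏_{p ≤ z} (1 - ν(p) / p) / (1 - 1 / p) ^ (K + 1)` of the singular series. -/
noncomputable def sing {K : ℕ} (m : Fin K → ℕ) (z : ℕ) : ℝ :=
  ∏ p ∈ (Icc 1 z).filter Nat.Prime, (1 - (nu m p : ℝ) / p) / (1 - 1 / (p : ℝ)) ^ (K + 1)

/-- The singular series converges to a number `S ≥ δ`, and for every window `(y₁, y₂]` with `y₂ ≤ B N`, `y₂ ≤ m i` for
all `i`, and `y₂ - y₁ ≥ N / log ^ A N`, the number of the primes `p` in the window for which all the `m i - p` are primes
agrees with `S (y₂ - y₁) / log ^ (K + 1) N` up to a relative error of at most `ε`. -/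
def Holds (ε δ : ℝ) (A B N : ℕ) {K : ℕ} (m : Fin K → ℕ) : Prop :=
  ∃ S : ℝ, δ ≤ S ∧ Tendsto (sing m) atTop (𝓝 S) ∧
    ∀ y₁ y₂ : ℕ, y₁ < y₂ → y₂ ≤ B * N → (∀ i, y₂ ≤ m i) → (N : ℝ) / Real.log N ^ A ≤ (y₂ : ℝ) - y₁ →
      |(rep m y₁ y₂ : ℝ) - S * ((y₂ : ℝ) - y₁) / Real.log N ^ (K + 1)| ≤
        ε * (S * ((y₂ : ℝ) - y₁) / Real.log N ^ (K + 1))

lemma om_eq {K : ℕ} (m : Fin K → ℕ) (p : ℕ) (hp : 0 < p) :
    om (consA (fun _ : Fin K => (-1 : ℤ))) (consB (fun i => (m i : ℤ))) p = nu m p := by
  unfold om nu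
  congr 1
  ext r
  rw [mem_filter, mem_range, mem_insert, mem_image]
  constructor
  · rintro ⟨hr, i, h⟩
    revert h
    refine Fin.cases ?_ (fun i => ?_) i
    · intro h
      left
      rw [consA_zero, consB_zero, one_mul, add_zero, Int.natCast_dvd_natCast] at h
      exact Nat.eq_zero_of_dvd_of_lt h hr
    · intro h
      right
      rw [consA_succ, consB_succ] at h
      refine ⟨i, mem_univ i, ?_⟩
      have h1 : (m i : ℤ) ≡ (r : ℤ) [ZMOD (p : ℤ)] := by
        rw [Int.modEq_iff_dvd]
        have e : (r : ℤ) - (m i : ℤ) = -(-1 * (r : ℤ) + (m i : ℤ)) := by ring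
        rw [e]
        exact (dvd_neg).2 h
      have h2 : m i ≡ r [MOD p] := (Int.natCast_modEq_iff).1 h1
      unfold Nat.ModEq at h2
      rw [h2, Nat.mod_eq_of_lt hr]
  · rintro (h | ⟨i, _, h⟩)
    · subst h
      exact ⟨hp, 0, by rw [consA_zero, consB_zero]; simp⟩
    · refine ⟨by rw [← h]; exact Nat.mod_lt _ hp, i.succ, ?_⟩
      rw [consA_succ, consB_succ]
      have h2 : r ≡ m i [MOD p] := by
        rw [← h]
        exact Nat.mod_modEq _ _
      have h3 := (Nat.modEq_iff_dvd).1 h2
      have e : -1 * (r : ℤ) + (m i : ℤ) = (m i : ℤ) - (r : ℤ) := by ring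
      rw [e]
      exact h3

lemma sing_eq {K : ℕ} (m : Fin K → ℕ) :
    (fun z => Gz (om (consA (fun _ : Fin K => (-1 : ℤ))) (consB (fun i => (m i : ℤ)))) (K + 1) z) = sing m := by
  funext z
  unfold Gz sing Fq Pool.Agent.H373R2.T7.pz
  apply prod_congr rfl
  intro p hp
  rw [om_eq m p (mem_filter.1 hp).2.pos]

lemma adm_of {K : ℕ} (m : Fin K → ℕ) (h : NoObstruction m) :
    Adm (consA (fun _ : Fin K => (-1 : ℤ))) (consB (fun i => (m i : ℤ))) := by
  intro p hp
  have h1 := h p hp
  rw [← om_eq m p hp.pos] at h1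
  by_contra hcon
  push Not at hcon
  have h2 : (range p).filter (fun r : ℕ => ∃ i, (p : ℤ) ∣
      consA (fun _ : Fin K => (-1 : ℤ)) i * (r : ℤ) + consB (fun i => (m i : ℤ)) i) = range p := by
    apply filter_true_of_mem
    intro r _
    obtain ⟨i, hi⟩ := hcon r
    exact ⟨i, hi⟩
  unfold om at h1
  rw [h2, card_range] at h1
  exact lt_irrefl _ h1

lemma dist_of {K : ℕ} (m : Fin K → ℕ) (hpos : ∀ i, 0 < m i) (hd : Function.Injective m) :
    Dist (consA (fun _ : Fin K => (-1 : ℤ))) (consB (fun i => (m i : ℤ))) := by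
  intro i j hij
  revert hij
  refine Fin.cases ?_ (fun i => ?_) i <;> refine Fin.cases ?_ (fun j => ?_) j
  · intro h
    exact absurd rfl h
  · intro _
    simp only [consA_zero, consA_succ, consB_zero, consB_succ]
    have := hpos j
    constructor <;> omega
  · intro _
    simp only [consA_zero, consA_succ, consB_zero, consB_succ]
    have := hpos i
    constructor <;> omega
  · intro h
    simp only [consA_succ, consB_succ]
    have h1 : m i ≠ m j := fun h2 => h (by rw [hd h2])
    constructor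
    · rintro ⟨_, h3⟩
      exact h1 (by exact_mod_cast h3)
    · omega

lemma cn_eq {K : ℕ} (m : Fin K → ℕ) (y₁ y₂ : ℕ) (h : ∀ i, y₂ ≤ m i) :
    cn (consA (fun _ : Fin K => (-1 : ℤ))) (consB (fun i => (m i : ℤ))) y₁ y₂ = rep m y₁ y₂ := by
  unfold cn rep
  congr 1
  apply filter_congr
  intro n hn
  rw [mem_Ioc] at hn
  have e : ∀ i, (-1 * (n : ℤ) + (m i : ℤ)).natAbs = m i - n := by
    intro i
    have := h i
    omega
  constructor
  · intro h1
    refine ⟨?_, fun i => ?_⟩
    · have h2 := h1 0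
      rw [consA_zero, consB_zero, one_mul, add_zero, Int.natAbs_natCast] at h2
      exact h2
    · have h2 := h1 i.succ
      rw [consA_succ, consB_succ, e i] at h2
      exact h2
  · rintro ⟨h1, h2⟩ i
    refine Fin.cases ?_ (fun i => ?_) i
    · rw [consA_zero, consB_zero, one_mul, add_zero, Int.natAbs_natCast]
      exact h1
    · rw [consA_succ, consB_succ, e i]
      exact h2 i

/-- for one number there is no local obstruction exactly if it is even -/
lemma one_even (n : ℕ) : NoObstruction (fun _ : Fin 1 => n) ↔ Even n := by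
  rw [even_iff_two_dvd]
  constructor
  · intro h
    have h1 := h 2 Nat.prime_two
    by_contra hcon
    have h2 : n % 2 = 1 := by omega
    unfold nu at h1
    simp only [h2] at h1
    have h3 : (univ.image (fun _ : Fin 1 => 1) : Finset ℕ) = {1} := by
      ext x
      simp
    rw [h3] at h1
    revert h1
    decide
  · intro h p hp
    unfold nu
    have h3 : (univ.image (fun _ : Fin 1 => n % p) : Finset ℕ) = {n % p} := by
      ext x
      simp
    rw [h3]
    rcases hp.eq_two_or_odd with h2 | h2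
    · subst h2
      have h4 : n % 2 = 0 := by omega
      rw [h4]
      decide
    · have h4 : (insert 0 {n % p} : Finset ℕ).card ≤ 2 := card_le_two
      have := hp.two_le
      omega

lemma dat_of {b d D N m : ℕ} {𝒟 : ℕ → Finset ℕ} {f : ℝ[X]} {A : Finset ℕ} (h : Fam b d D N m 𝒟 f A) :
    Pool.Agent.X31.CT.Dat b d D N m 𝒟 f A :=
  ⟨h.1, h.2.1, h.2.2.1, h.2.2.2.1, h.2.2.2.2.1, h.2.2.2.2.2.1, h.2.2.2.2.2.2⟩

/-- Part 1. For every `K ≥ 1` there is `δ > 0` with the following property. Let `b i ≥ 2`, `d i ≥ 2`, `i < K`, and `A`, `B`,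
`D`, `U` be natural numbers and `ε > 0`. For all sufficiently large `N`, all numbers `M i` of digits, ALL sets `𝒟 i j`
of allowed digits, ALL real polynomials `f i` and all subsets `𝒜 i` with `Fam (b i) (d i) D N (M i) (𝒟 i) (f i) (𝒜 i)`: for
all but at most `(∏ #(𝒜 i)) / log ^ U N` of the vectors `n` with `n i ∈ 𝒜 i`, ALL vectors `m` of different positive integers
without local obstruction with `|m i - f_i(n i)| ≤ log ^ D N` satisfy `Holds ε δ A B N m`.

Part 2. For `K = 1` there is no local obstruction exactly if `m` is even. -/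
theorem result :
    (∀ K : ℕ, 1 ≤ K → ∃ δ : ℝ, 0 < δ ∧
      ∀ (b d : Fin K → ℕ), (∀ i, 2 ≤ b i) → (∀ i, 2 ≤ d i) →
      ∀ (A B D U : ℕ) (ε : ℝ), 0 < ε → ∃ N₀ : ℕ, ∀ N : ℕ, N₀ ≤ N →
      ∀ (M : Fin K → ℕ) (𝒟 : Fin K → ℕ → Finset ℕ) (f : Fin K → ℝ[X]) (𝒜 : Fin K → Finset ℕ),
        (∀ i, Fam (b i) (d i) D N (M i) (𝒟 i) (f i) (𝒜 i)) →
      ∃ E : Finset (Fin K → ℕ), (E.card : ℝ) ≤ (∏ i, ((𝒜 i).card : ℝ)) / Real.log N ^ U ∧
        ∀ n : Fin K → ℕ, (∀ i, n i ∈ 𝒜 i) → n ∉ E → ∀ m : Fin K → ℕ, (∀ i, 0 < m i) →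
          Function.Injective m → NoObstruction m →
          (∀ i, |(m i : ℝ) - (f i).eval (n i : ℝ)| ≤ Real.log N ^ D) → Holds ε δ A B N m) ∧
    (∀ n : ℕ, NoObstruction (fun _ : Fin 1 => n) ↔ Even n) := by
  classical
  refine ⟨fun K hK => ?_, one_even⟩
  obtain ⟨δ, hδ, hlow⟩ := Gz_low (K + 1) (by omega)
  refine ⟨δ, hδ, fun b d hb hd A B D U ε hε => ?_⟩
  obtain ⟨N₀, h0⟩ := Pool.Agent.X31.CT.dg_tuples b d hb hd D U _
    (fun h _ => Pool.Agent.X31.famT_sys (sys_lam K hK) hK h A B 0 ε hε)
  refine ⟨N₀ + 3, fun N hN M 𝒟 f 𝒜 hdat => ?_⟩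
  have hl : 0 < Real.log N := Real.log_pos (by exact_mod_cast (by omega : 1 < N))
  refine ⟨(Fintype.piFinset 𝒜).filter (fun n => ¬ ∀ m : Fin K → ℕ, (∀ i, 0 < m i) →
          Function.Injective m → NoObstruction m →
          (∀ i, |(m i : ℝ) - (f i).eval (n i : ℝ)| ≤ Real.log N ^ D) → Holds ε δ A B N m), ?_, ?_⟩
  swap
  · intro n hn hnE
    rw [mem_filter] at hnE
    by_contra hcon
    exact hnE ⟨Fintype.mem_piFinset.2 hn, hcon⟩
  · apply h0 N (by omega) M 𝒟 f 𝒜 (fun i => dat_of (hdat i)) _ (filter_subset _ _)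
    intro n hn
    rw [mem_filter] at hn
    obtain ⟨_, hn⟩ := hn
    push Not at hn
    obtain ⟨m, hm0, hmi, hadm, hm1, hm2⟩ := hn
    refine ⟨fun i => (m i : ℤ), fun i => ?_, fun hG => hm2 ?_⟩
    · have := hm1 i
      push_cast
      exact this
    · have hA := adm_of m hadm
      have hD := dist_of m hm0 hmi
      obtain ⟨S, hS0, hS1, hS2⟩ := hG (fun _ => (-1 : ℤ)) (fun _ => by norm_num) (fun _ => by norm_num) hA hD
      have hloc := loc_of hA hD ((sys_lam K hK).ne _ (fun _ => by norm_num))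
      refine ⟨S, ?_, ?_, fun y₁ y₂ h12 hy2 hy3 hw => ?_⟩
      · exact ge_of_tendsto' hS1 (fun z => hlow _ _ hloc z)
      · rw [← sing_eq m]
        exact hS1
      · have h3 := hS2 y₁ y₂ h12.le hy2 hw
        rw [cn_eq m y₁ y₂ hy3] at h3
        exact h3

end Pool.Agent.Results.MP_dd84fd_nt.SimultaneousMissingDigits
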