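import Pool.Agent.X31.F2

/-!
# A uniform lower bound for the number of simultaneous Goldbach representations near the values of
# generalised polynomials

`f_i(t) = ∑ a_x t ^ x`, `i = 1, ..., K`, are arbitrary finite real combinations of real powers of `t` with positive
largest exponents `c_i` (for instance `t ^ {3/2}`, `√2 t ^ 3 + t`). For almost all vectors `(n_1, ..., n_K)` of elements of
ARBITRARY dense sets `A_i ⊆ {1, ..., Y_i}` (for instance: primes), ALL vectors `(m_1, ..., m_K)` of different positive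
integers without local obstruction with `|m_i - (k_i + f_i(n_i))| ≤ log ^ D N` are such that the number of the primes `p`
for which ALL the `m_i - p` are primes satisfies the asymptotic formula, hence the uniform lower bound of order
`N / log ^ (K + 1) N`, in every window of length at least `N / log ^ A N`. The case `K = 1` concerns the even numbers near
`k + f(n)`.

The bound for the real additive energy of all generalised polynomials is from `Pool.Agent.X31` (`gp_EB`, in this
run); the theorem for products of families with small energies is `Pool.Agent.TH935.TF.fam_sys` (starting files).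
-/

set_option autoImplicit false

namespace Pool.Agent.Results.MP_dd84fd_nt.SimultaneousRepresentations

open Finset Filter Topology
open Pool.Agent.TH935.TF

/-- the generalised polynomial with the exponents `x ∈ F` and the coefficients `a x` -/
noncomputable def f (F : Finset ℝ) (a : ℝ → ℝ) (t : ℝ) : ℝ := ∑ x ∈ F, a x * t ^ x

/-- The number of the primes `p` with `y₁ < p ≤ y₂` for which all the numbers `m i - p` are primes. -/
def rep {K : ℕ} (m : Fin K → ℕ) (y₁ y₂ : ℕ) : ℕ :=
  ((Ioc y₁ y₂).filter (fun p : ℕ => p.Prime ∧ ∀ i, (m i - p).Prime)).card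

/-- The number of the different residues modulo `p` among the numbers `0, m 1, ..., m K`. -/
def nu {K : ℕ} (m : Fin K → ℕ) (p : ℕ) : ℕ := (insert 0 (univ.image (fun i => m i % p))).card

/-- There is no local obstruction: for no prime `p` do the numbers `0, m 1, ..., m K` meet all the classes
modulo `p`. -/
def NoObstruction {K : ℕ} (m : Fin K → ℕ) : Prop := ∀ p : ℕ, p.Prime → nu m p < p

/-- The partial products `∏_{p ≤ z} (1 - ν(p) / p) / (1 - 1 / p) ^ (K + 1)` of the singular series. -/
noncomputable def sing {K : ℕ} (m : Fin K → ℕ) (z : ℕ) : ℝ :=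
  ∏ p ∈ (Icc 1 z).filter Nat.Prime, (1 - (nu m p : ℝ) / p) / (1 - 1 / (p : ℝ)) ^ (K + 1)

/-- The singular series converges to a number `S ≥ δ`, and for every window `(y₁, y₂]` with `y₂ ≤ B N`, `y₂ ≤ m i` for
all `i`, and `y₂ - y₁ ≥ N / log ^ A N`, the number of the primes `p` in the window for which all the `m i - p` are primes
agrees with `S (y₂ - y₁) / log ^ (K + 1) N` up to a relative error of at most `ε`. -/
def Holds (ε δ : ℝ) (A B N : ℕ) {K : ℕ} (m : Fin K → ℕ) : Prop :=
  ∃ S : ℝ, δ ≤ S ∧ Tendsto (sing m) atTop (𝓝 S) ∧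
    ∀ y₁ y₂ : ℕ, y₁ < y₂ → y₂ ≤ B * N → (∀ i, y₂ ≤ m i) → (N : ℝ) / Real.log N ^ A ≤ (y₂ : ℝ) - y₁ →
      |(rep m y₁ y₂ : ℝ) - S * ((y₂ : ℝ) - y₁) / Real.log N ^ (K + 1)| ≤
        ε * (S * ((y₂ : ℝ) - y₁) / Real.log N ^ (K + 1))

lemma om_eq {K : ℕ} (m : Fin K → ℕ) (p : ℕ) (hp : 0 < p) :
    om (consA (fun _ : Fin K => (-1 : ℤ))) (consB (fun i => (m i : ℤ))) p = nu m p := by
  unfold om nu
  congr 1
  ext r
  rw [mem_filter, mem_range, mem_insert, mem_image]
  constructor
  · rintro ⟨hr, i, h⟩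
    revert h
    refine Fin.cases ?_ (fun i => ?_) i
    · intro h
      left
      rw [consA_zero, consB_zero, one_mul, add_zero, Int.natCast_dvd_natCast] at h
      exact Nat.eq_zero_of_dvd_of_lt h hr
    · intro h
      right
      rw [consA_succ, consB_succ] at h
      refine ⟨i, mem_univ i, ?_⟩
      have h1 : (m i : ℤ) ≡ (r : ℤ) [ZMOD (p : ℤ)] := by
        rw [Int.modEq_iff_dvd]
        have e : (r : ℤ) - (m i : ℤ) = -(-1 * (r : ℤ) + (m i : ℤ)) := by ring
        rw [e]
        exact (dvd_neg).2 h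
      have h2 : m i ≡ r [MOD p] := (Int.natCast_modEq_iff).1 h1
      unfold Nat.ModEq at h2
      rw [h2, Nat.mod_eq_of_lt hr]
  · rintro (h | ⟨i, _, h⟩)
    · subst h
      exact ⟨hp, 0, by rw [consA_zero, consB_zero]; simp⟩
    · refine ⟨by rw [← h]; exact Nat.mod_lt _ hp, i.succ, ?_⟩
      rw [consA_succ, consB_succ]
      have h2 : r ≡ m i [MOD p] := by
        rw [← h]
        exact Nat.mod_modEq _ _
      have h3 := (Nat.modEq_iff_dvd).1 h2
      have e : -1 * (r : ℤ) + (m i : ℤ) = (m i : ℤ) - (r : ℤ) := by ring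
      rw [e]
      exact h3

lemma sing_eq {K : ℕ} (m : Fin K → ℕ) :
    (fun z => Gz (om (consA (fun _ : Fin K => (-1 : ℤ))) (consB (fun i => (m i : ℤ)))) (K + 1) z) = sing m := by
  funext z
  unfold Gz sing Fq Pool.Agent.H373R2.T7.pz
  apply prod_congr rfl
  intro p hp
  rw [om_eq m p (mem_filter.1 hp).2.pos]

lemma adm_of {K : ℕ} (m : Fin K → ℕ) (h : NoObstruction m) :
    Adm (consA (fun _ : Fin K => (-1 : ℤ))) (consB (fun i => (m i : ℤ))) := by
  intro p hp
  have h1 := h p hp
  rw [← om_eq m p hp.pos] at h1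
  by_contra hcon
  push Not at hcon
  have h2 : (range p).filter (fun r : ℕ => ∃ i, (p : ℤ) ∣
      consA (fun _ : Fin K => (-1 : ℤ)) i * (r : ℤ) + consB (fun i => (m i : ℤ)) i) = range p := by
    apply filter_true_of_mem
    intro r _
    obtain ⟨i, hi⟩ := hcon r
    exact ⟨i, hi⟩
  unfold om at h1
  rw [h2, card_range] at h1
  exact lt_irrefl _ h1

lemma dist_of {K : ℕ} (m : Fin K → ℕ) (hpos : ∀ i, 0 < m i) (hd : Function.Injective m) :
    Dist (consA (fun _ : Fin K => (-1 : ℤ))) (consB (fun i => (m i : ℤ))) := by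
  intro i j hij
  revert hij
  refine Fin.cases ?_ (fun i => ?_) i <;> refine Fin.cases ?_ (fun j => ?_) j
  · intro h
    exact absurd rfl h
  · intro _
    simp only [consA_zero, consA_succ, consB_zero, consB_succ]
    have := hpos j
    constructor <;> omega
  · intro _
    simp only [consA_zero, consA_succ, consB_zero, consB_succ]
    have := hpos i
    constructor <;> omega
  · intro h
    simp only [consA_succ, consB_succ]
    have h1 : m i ≠ m j := fun h2 => h (by rw [hd h2])
    constructor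
    · rintro ⟨_, h3⟩
      exact h1 (by exact_mod_cast h3)
    · omega

lemma cn_eq {K : ℕ} (m : Fin K → ℕ) (y₁ y₂ : ℕ) (h : ∀ i, y₂ ≤ m i) :
    cn (consA (fun _ : Fin K => (-1 : ℤ))) (consB (fun i => (m i : ℤ))) y₁ y₂ = rep m y₁ y₂ := by
  unfold cn rep
  congr 1
  apply filter_congr
  intro n hn
  rw [mem_Ioc] at hn
  have e : ∀ i, (-1 * (n : ℤ) + (m i : ℤ)).natAbs = m i - n := by
    intro i
    have := h i
    omega
  constructor
  · intro h1
    refine ⟨?_, fun i => ?_⟩
    · have h2 := h1 0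
      rw [consA_zero, consB_zero, one_mul, add_zero, Int.natAbs_natCast] at h2
      exact h2
    · have h2 := h1 i.succ
      rw [consA_succ, consB_succ, e i] at h2
      exact h2
  · rintro ⟨h1, h2⟩ i
    refine Fin.cases ?_ (fun i => ?_) i
    · rw [consA_zero, consB_zero, one_mul, add_zero, Int.natAbs_natCast]
      exact h1
    · rw [consA_succ, consB_succ, e i]
      exact h2 i

/-- for one number there is no local obstruction exactly if it is even -/
lemma one_even (n : ℕ) : NoObstruction (fun _ : Fin 1 => n) ↔ Even n := by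
  rw [even_iff_two_dvd]
  constructor
  · intro h
    have h1 := h 2 Nat.prime_two
    by_contra hcon
    have h2 : n % 2 = 1 := by omega
    unfold nu at h1
    simp only [h2] at h1
    have h3 : (univ.image (fun _ : Fin 1 => 1) : Finset ℕ) = {1} := by
      ext x
      simp
    rw [h3] at h1
    revert h1
    decide
  · intro h p hp
    unfold nu
    have h3 : (univ.image (fun _ : Fin 1 => n % p) : Finset ℕ) = {n % p} := by
      ext x
      simp
    rw [h3]
    rcases hp.eq_two_or_odd with h2 | h2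
    · subst h2
      have h4 : n % 2 = 0 := by omega
      rw [h4]
      decide
    · have h4 : (insert 0 {n % p} : Finset ℕ).card ≤ 2 := card_le_two
      have := hp.two_le
      omega

/-- Part 1. For every `K ≥ 1` there is `δ > 0` with the following property. Let `f_i = f (F i) (a i)`, `i = 1, ..., K`, be
arbitrary generalised polynomials with the largest exponents `c i > 0` and `a i (c i) ≠ 0`, let `A`, `B`, `D`, `U` be
natural numbers and `ε > 0`. For all sufficiently large `N` and all `Y i` with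
`N / log ^ D N ≤ (Y i) ^ (c i) ≤ N`, ALL sets `𝒜 i ⊆ {1, ..., Y i}` with at least `Y i / log ^ D N` elements and all real
`k i` with `|k i| ≤ N`: for all but at most `(∏ #(𝒜 i)) / log ^ U N` of the vectors `n` with `n i ∈ 𝒜 i`, ALL vectors `m` of
different positive integers without local obstruction with `|m i - (k i + f_i(n i))| ≤ log ^ D N` satisfy
`Holds ε δ A B N m`.

Part 2. For `K = 1` there is no local obstruction exactly if `m` is even. -/
theorem result :
    (∀ K : ℕ, 1 ≤ K → ∃ δ : ℝ, 0 < δ ∧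
      ∀ (F : Fin K → Finset ℝ) (a : Fin K → ℝ → ℝ) (c : Fin K → ℝ),
        (∀ i, c i ∈ F i ∧ (∀ x ∈ F i, x ≤ c i) ∧ a i (c i) ≠ 0 ∧ 0 < c i) →
      ∀ (A B D U : ℕ) (ε : ℝ), 0 < ε → ∃ N₀ : ℕ, ∀ N : ℕ, N₀ ≤ N →
      ∀ (Y : Fin K → ℕ) (𝒜 : Fin K → Finset ℕ) (k : Fin K → ℝ),
        (∀ i, (N : ℝ) / Real.log N ^ D ≤ (Y i : ℝ) ^ (c i) ∧ (Y i : ℝ) ^ (c i) ≤ N ∧
          𝒜 i ⊆ Icc 1 (Y i) ∧ (Y i : ℝ) / Real.log N ^ D ≤ (𝒜 i).card ∧ |k i| ≤ N) →
      ∃ E : Finset (Fin K → ℕ), (E.card : ℝ) ≤ (∏ i, ((𝒜 i).card : ℝ)) / Real.log N ^ U ∧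
        ∀ n : Fin K → ℕ, (∀ i, n i ∈ 𝒜 i) → n ∉ E → ∀ m : Fin K → ℕ, (∀ i, 0 < m i) →
          Function.Injective m → NoObstruction m →
          (∀ i, |(m i : ℝ) - (k i + f (F i) (a i) (n i))| ≤ Real.log N ^ D) → Holds ε δ A B N m) ∧
    (∀ n : ℕ, NoObstruction (fun _ : Fin 1 => n) ↔ Even n) := by
  classical
  refine ⟨fun K hK => ?_, one_even⟩
  obtain ⟨δ, hδ, hlow⟩ := Gz_low (K + 1) (by omega)
  refine ⟨δ, hδ, fun F a c hF A B D U ε hε => ?_⟩
  obtain ⟨N₀, h0⟩ := Pool.Agent.X31.gp_tuples F a c (fun i => (hF i).1) (fun i => (hF i).2.1)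
    (fun i => (hF i).2.2.1) (fun i => (hF i).2.2.2) D U _
    (fun h _ => Pool.Agent.X31.famT_sys (sys_lam K hK) hK h A B 0 ε hε)
  refine ⟨N₀ + 3, fun N hN Y 𝒜 k hdat => ?_⟩
  have hl : 0 < Real.log N := Real.log_pos (by exact_mod_cast (by omega : 1 < N))
  refine ⟨(Fintype.piFinset 𝒜).filter (fun n => ¬ ∀ m : Fin K → ℕ, (∀ i, 0 < m i) →
          Function.Injective m → NoObstruction m →
          (∀ i, |(m i : ℝ) - (k i + f (F i) (a i) (n i))| ≤ Real.log N ^ D) → Holds ε δ A B N m), ?_, ?_⟩
  swap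
  · intro n hn hnE
    rw [mem_filter] at hnE
    by_contra hcon
    exact hnE ⟨Fintype.mem_piFinset.2 hn, hcon⟩
  · apply h0 N (by omega) Y 𝒜 k (fun i => ?_) _ (filter_subset _ _)
    · intro n hn
      rw [mem_filter] at hn
      obtain ⟨_, hn⟩ := hn
      push Not at hn
      obtain ⟨m, hm0, hmi, hadm, hm1, hm2⟩ := hn
      refine ⟨fun i => (m i : ℤ), fun i => ?_, fun hG => hm2 ?_⟩
      · have := hm1 i
        unfold f at this
        unfold Pool.Agent.X31.gp
        push_cast
        exact this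
      · have hA := adm_of m hadm
        have hD := dist_of m hm0 hmi
        obtain ⟨S, hS0, hS1, hS2⟩ := hG (fun _ => (-1 : ℤ)) (fun _ => by norm_num) (fun _ => by norm_num) hA hD
        have hloc := loc_of hA hD ((sys_lam K hK).ne _ (fun _ => by norm_num))
        refine ⟨S, ?_, ?_, fun y₁ y₂ h12 hy2 hy3 hw => ?_⟩
        · exact ge_of_tendsto' hS1 (fun z => hlow _ _ hloc z)
        · rw [← sing_eq m]
          exact hS1
        · have h3 := hS2 y₁ y₂ h12.le hy2 hw
          rw [cn_eq m y₁ y₂ hy3] at h3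
          exact h3
    · obtain ⟨d1, d2, d3, d4, d5⟩ := hdat i
      rw [div_le_iff₀ (by positivity)] at d1 d4
      exact ⟨d2, d1, d3, d4, d5⟩

end Pool.Agent.Results.MP_dd84fd_nt.SimultaneousRepresentations
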